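import Pool.Agent.Helper76.ND.StC

/-!
# Project ND (MP_77ff3d_nt), module Pb: simple properties of `fb`, `Psi`, `Cls`
-/

set_option autoImplicit false

noncomputable section

namespace Pool.Agent.Helper23.ND

open Pool.Agent.Helper76.ND Finset

theorem card_pairs (n : ℕ) : ∑ p ∈ Icc 1 n, (Icc (p + 1) n).card = n.choose 2 := by
  induction n with
  | zero => simp
  | succ n ih =>
    rw [sum_Icc_succ_top (by omega)]
    have h1 : ∀ p ∈ Icc 1 n, (Icc (p + 1) (n + 1)).card = (Icc (p + 1) n).card + 1 := by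
      intro p hp
      rw [mem_Icc] at hp
      rw [Nat.card_Icc, Nat.card_Icc]
      omega
    rw [sum_congr rfl h1, sum_add_distrib, ih, Nat.card_Icc]
    simp only [sum_const, Nat.card_Icc, smul_eq_mul, mul_one]
    have h2 : (n + 1).choose 2 = n + n.choose 2 := by
      rw [Nat.choose_succ_succ' n 1, Nat.choose_one_right]
    rw [h2]
    omega

theorem fb_le_one (b : ℕ) (X : ℕ → ℝ) : fb b X ≤ 1 := by
  unfold fb
  set C : ℝ := ((b - 1).choose 2 : ℝ) with hC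
  have h1 : ‖∑ p ∈ Icc 1 (b - 1), ∑ r ∈ Icc (p + 1) (b - 1), ev (X p + 3 * X r)‖ ≤ C := by
    calc ‖∑ p ∈ Icc 1 (b - 1), ∑ r ∈ Icc (p + 1) (b - 1), ev (X p + 3 * X r)‖
        ≤ ∑ p ∈ Icc 1 (b - 1), ∑ r ∈ Icc (p + 1) (b - 1), ‖ev (X p + 3 * X r)‖ :=
          (norm_sum_le _ _).trans (sum_le_sum fun p _ => norm_sum_le _ _)
      _ = ∑ p ∈ Icc 1 (b - 1), ((Icc (p + 1) (b - 1)).card : ℝ) := by
          refine sum_congr rfl fun p _ => ?_
          simp only [norm_ev, sum_const, nsmul_eq_mul, mul_one]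
      _ = C := by
          rw [hC, ← card_pairs (b - 1)]
          push_cast
          rfl
  have hC0 : 0 ≤ C := by positivity
  have h2 : ‖∑ p ∈ Icc 1 (b - 1), ∑ r ∈ Icc (p + 1) (b - 1), ev (X p + 3 * X r)‖ ^ 2 ≤ C ^ 2 :=
    pow_le_pow_left₀ (norm_nonneg _) h1 2
  exact div_le_one_of_le₀ h2 (by positivity)

theorem sum_P3 (k : ℕ) : ∑ b ∈ Icc 3 (k + 2), P3 b =
    1 - (((k : ℝ) + 2) ^ 2 + (k + 2) + 2) / 2 ^ (k + 3) := by
  induction k with
  | zero =>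
    simp
    norm_num
  | succ k ih =>
    rw [show k + 1 + 2 = (k + 2) + 1 by ring, sum_Icc_succ_top (by omega), ih]
    unfold P3
    rw [show k + 2 + 1 - 1 = k + 2 by omega, Nat.cast_choose_two]
    push_cast
    rw [show k + 1 + 3 = (k + 3) + 1 by ring, show k + 2 + 1 = k + 3 by ring, pow_succ (2 : ℝ) (k + 3)]
    field_simp
    ring

theorem sum_P3_le (K : ℕ) : ∑ b ∈ Icc 3 K, P3 b ≤ 1 := by
  rcases Nat.lt_or_ge K 2 with h | h
  · rw [Icc_eq_empty (by omega), sum_empty]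
    norm_num
  · obtain ⟨k, rfl⟩ := Nat.exists_eq_add_of_le' h
    rw [sum_P3]
    have : 0 ≤ (((k : ℝ) + 2) ^ 2 + (k + 2) + 2) / 2 ^ (k + 3) := by positivity
    linarith

theorem Psi_nonneg (K : ℕ) : ∀ (k : ℕ) (X : ℕ → ℝ), 0 ≤ Psi K k X
  | 0, _ => by
    rw [Psi]
    norm_num
  | k + 1, X => by
    rw [Psi]
    exact sum_nonneg fun b _ =>
      mul_nonneg (mul_nonneg (P3_nonneg b) (fb_nonneg b X)) (Psi_nonneg K k _)

theorem Psi_le_one (K : ℕ) : ∀ (k : ℕ) (X : ℕ → ℝ), Psi K k X ≤ 1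
  | 0, _ => by
    rw [Psi]
  | k + 1, X => by
    rw [Psi]
    refine le_trans (sum_le_sum fun b _ => ?_) (sum_P3_le K)
    have h1 : P3 b * fb b X ≤ P3 b * 1 := mul_le_mul_of_nonneg_left (fb_le_one b X) (P3_nonneg b)
    have h2 : P3 b * fb b X * Psi K k (fun a => 27 * X (b + a)) ≤ P3 b * fb b X * 1 :=
      mul_le_mul_of_nonneg_left (Psi_le_one K k _) (mul_nonneg (P3_nonneg b) (fb_nonneg b X))
    linarith

theorem Psi_mono (K : ℕ) : ∀ (k : ℕ) (X : ℕ → ℝ), Psi K (k + 1) X ≤ Psi K k X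
  | 0, X => by
    have := Psi_le_one K 1 X
    rw [show Psi K 0 X = 1 from by rw [Psi]]
    exact this
  | k + 1, X => by
    have h1 : Psi K (k + 1) X =
        ∑ b ∈ Icc 3 K, P3 b * fb b X * Psi K k (fun a => 27 * X (b + a)) := by rw [Psi]
    rw [Psi, h1]
    exact sum_le_sum fun b _ =>
      mul_le_mul_of_nonneg_left (Psi_mono K k _) (mul_nonneg (P3_nonneg b) (fb_nonneg b X))

theorem fb_periodic (b : ℕ) (X Y : ℕ → ℝ) (h : ∀ p, ∃ m : ℤ, X p = Y p + m) :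
    fb b X = fb b Y := by
  unfold fb
  congr 3
  refine sum_congr rfl fun p _ => sum_congr rfl fun r _ => ?_
  obtain ⟨m, hm⟩ := h p
  obtain ⟨m', hm'⟩ := h r
  have e : X p + 3 * X r = (Y p + 3 * Y r) + ((m + 3 * m' : ℤ) : ℝ) := by
    rw [hm, hm']
    push_cast
    ring
  rw [e, ev_add_int]

theorem Psi_periodic (K : ℕ) : ∀ (k : ℕ) (X Y : ℕ → ℝ), (∀ p, ∃ m : ℤ, X p = Y p + m) →
    Psi K k X = Psi K k Y
  | 0, _, _, _ => by
    rw [Psi, Psi]
  | k + 1, X, Y, h => by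
    rw [Psi, Psi]
    refine sum_congr rfl fun b _ => ?_
    rw [fb_periodic b X Y h, Psi_periodic K k (fun a => 27 * X (b + a)) (fun a => 27 * Y (b + a)) ?_]
    intro p
    obtain ⟨m, hm⟩ := h (b + p)
    refine ⟨27 * m, ?_⟩
    show 27 * X (b + p) = 27 * Y (b + p) + ((27 * m : ℤ) : ℝ)
    rw [hm]
    push_cast
    ring

theorem hPb : StPb := by
  refine ⟨fb_le_one, sum_P3_le, Psi_nonneg, Psi_le_one, Psi_mono, fb_periodic, Psi_periodic, ?_⟩
  intro n b X hX j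
  obtain ⟨⟨c, m, hc, h1⟩, m', h2⟩ := hX (b + j)
  refine ⟨⟨c, 27 * m, hc, ?_⟩, 27 * m', ?_⟩
  · show 27 * X (b + j) = _
    rw [h1, pow_add]
    push_cast
    field_simp
    ring
  · show 2 * (27 * X (b + (j + 1))) = 27 * X (b + j) + _
    push_cast
    rw [show b + (j + 1) = b + j + 1 by ring]
    linarith

end Pool.Agent.Helper23.ND
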